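import Pool.Agent.helper99.IT.Spec

/-!
# Row it:PRI (MP_bf63dc_nt): a true pair of an orbit is a true iterate
-/

set_option autoImplicit false

namespace Pool.Agent.IT

open Finset Pool.Agent.AT

theorem PRI_br (a b k : ℕ) : br a b (k + 1) = b * br a b k + a ^ k := by
  unfold br
  rw [Finset.sum_range_succ, Finset.mul_sum]
  congr 1
  · refine Finset.sum_congr rfl fun i hi => ?_
    have hi' : i < k := Finset.mem_range.1 hi
    have h1 : k + 1 - 1 - i = (k - 1 - i) + 1 := by omega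
    rw [h1, pow_succ]; ring
  · simp

theorem PRI_orbit (a b E : ℕ) (c : ℤ) (h : ℕ → ℤ) (hh : ∀ i < E, (a : ℤ) * h (i + 1) = b * h i + c) (e : ℕ) :
    ∀ k : ℕ, e + k ≤ E → (a : ℤ) ^ k * h (e + k) = (b : ℤ) ^ k * h e + c * (br a b k : ℕ) := by
  intro k
  induction k with
  | zero => intro _; simp [br]
  | succ k ih =>
    intro hk
    have h1 := ih (by omega)
    have h2 := hh (e + k) (by omega)
    rw [PRI_br]
    push_cast
    have h3 : (a : ℤ) ^ (k + 1) * h (e + (k + 1)) = (a : ℤ) ^ k * ((a : ℤ) * h (e + k + 1)) := by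
      rw [pow_succ]; rw [show e + (k + 1) = e + k + 1 from rfl]; ring
    rw [h3, h2, mul_add]
    have h4 : (a : ℤ) ^ k * ((b : ℤ) * h (e + k)) = b * ((a : ℤ) ^ k * h (e + k)) := by ring
    rw [h4, h1]; ring

theorem PRI : PRI_stmt := by
  intro a b E c h e e' ha hb hab hh hee hE hP
  obtain ⟨m, rfl⟩ : ∃ m, e' = e + m := ⟨e' - e, by omega⟩
  have hm : e + m - e = m := by omega
  have hEe : E - e = (E - (e + m)) + m := by omega
  rw [hm]
  unfold Pair at hP
  simp only at hP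
  set D : ℕ := a ^ (E - (e + m)) * b ^ e with hD
  have hDpos : 0 < D := by positivity
  have hf : a ^ (E - (e + m)) * b ^ (e + m) = D * b ^ m := by rw [hD, pow_add]; ring
  have hg : a ^ (E - e) * b ^ e = D * a ^ m := by rw [hD, hEe, pow_add]; ring
  rw [hf, hg] at hP
  have hgcd : Nat.gcd (D * b ^ m) (D * a ^ m) = D := by
    rw [Nat.gcd_mul_left]
    have : Nat.gcd (b ^ m) (a ^ m) = 1 := Nat.Coprime.pow _ _ hab.symm
    rw [this, mul_one]
  rw [hgcd, Nat.mul_div_cancel_left _ hDpos, Nat.mul_div_cancel_left _ hDpos] at hP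
  have hD' : (D : ℤ) ≠ 0 := by exact_mod_cast hDpos.ne'
  have hc : (((D * a ^ m : ℕ) : ℤ) * h (e + m) - ((D * b ^ m : ℕ) : ℤ) * h e) / (D : ℤ) = c * (br a b m : ℕ) := by
    have h1 := PRI_orbit a b E c h hh e m hE
    have h2 : ((D * a ^ m : ℕ) : ℤ) * h (e + m) - ((D * b ^ m : ℕ) : ℤ) * h e = (D : ℤ) * (c * (br a b m : ℕ)) := by
      push_cast
      linear_combination (D : ℤ) * h1
    rw [h2, Int.mul_ediv_cancel_left _ hD']
  rw [hc] at hP
  exact hP

end Pool.Agent.IT
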